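import Pool.Agent.H15.Hx.FDefs
import Pool.Agent.H40.Hx.TMain
import Pool.Agent.H15.Hx.M23_Discrete
import Pool.Agent.H25.Hx2.E10_Main

/-!
# MP_d105ab_an, Q1: bounded energy for supercritical damping

For `N ≥ 3`, `α > 4 / (N - 2)`, `a > 0`, a bounded open set `Ω ⊆ ℝᴺ` and a force
`f ∈ L^∞(ℝ⁺; L²(Ω))`, every weak solution of
`u_tt - Δu + a |u_t|^α u_t = f` in `Ω`, `u = 0` on `∂Ω`, has bounded energy on `[0, ∞)`.
The definitions (energy space, operator, strong and weak solutions) are in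
`Pool.Agent.H15.Hx.FDefs`. The theorems `waveSol_exists` and `waveSol_unique` show that the
definition is the right one: every state of the energy space is the initial value of exactly one
weak solution.
-/

set_option autoImplicit false

open MeasureTheory Filter Topology Metric Set
open Pool.Agent.H15.DampedWave

namespace Pool.Agent.Results.MP_d105ab_an.BoundedEnergy

theorem discreteBound : Pool.Agent.H40.Hx.DiscreteBound := by
  intro P Ω R M hΩ hR
  obtain ⟨C, -, hC⟩ := Pool.Agent.H15.Hx.discrete_bounded P (max R 1) |M| (le_max_right _ _)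
    (abs_nonneg _)
  refine ⟨C, fun S hS n => ?_⟩
  refine hC Ω hΩ (hR.trans (Metric.ball_subset_ball (le_max_left _ _))) S (fun m => ?_) n
  rw [sq_abs]
  exact hS m

/-- the two forms of the definition of weak solutions agree -/
theorem waveSol_iff {N : ℕ} (a α : ℝ) (Ω : Set (E N)) (f : ℝ → L2 N) (U : ℝ → St N) :
    WaveSol a α Ω f U ↔ Pool.Agent.H40.Hx.WeakSol a α Ω f U := Iff.rfl

/-- Existence: every `U₀` in the energy space `H¹₀(Ω) × L²(Ω)` is the initial value of a weak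
solution on `[0, ∞)`. -/
theorem waveSol_exists {N : ℕ} (hN : 1 ≤ N) {a α : ℝ} (ha : 0 < a) (hα : 0 < α) {Ω : Set (E N)}
    (hΩ : IsOpen Ω) (hb : Bornology.IsBounded Ω) {M : ℝ} {f : ℝ → L2 N} (hf : ForceBound Ω M f)
    {U₀ : St N} (hU₀ : U₀ ∈ EnergySpace Ω) : ∃ U : ℝ → St N, U 0 = U₀ ∧ WaveSol a α Ω f U :=
  Pool.Agent.H25.Hx2.weakSol_exists hN ha hα hΩ hb (M := M) hf hU₀

/-- Uniqueness: two weak solutions with the same initial value agree on `[0, ∞)`. -/
theorem waveSol_unique {N : ℕ} (hN : 1 ≤ N) {a α : ℝ} (ha : 0 < a) (hα : 0 < α) {Ω : Set (E N)}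
    (hΩ : IsOpen Ω) (hb : Bornology.IsBounded Ω) {M : ℝ} {f : ℝ → L2 N} (hf : ForceBound Ω M f)
    {U V : ℝ → St N} (hU : WaveSol a α Ω f U) (hV : WaveSol a α Ω f V) (h0 : U 0 = V 0) :
    ∀ t : ℝ, 0 ≤ t → U t = V t :=
  Pool.Agent.H25.Hx2.weakSol_unique hN ha hα hΩ hb (M := M) hf hU hV h0

/-- Bounded energy: for every `f ∈ L^∞(ℝ⁺; L²(Ω))` and every weak solution `U = (u, u_t)` one has
`√E(t) ≤ √E(0) + B` for all `t ≥ 0`, where `B` depends only on `N, a, α, Ω` and the bound `M` of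
`f`. -/
theorem result (N : ℕ) (hN : 3 ≤ N) (a α : ℝ) (ha : 0 < a) (hα : 4 / ((N : ℝ) - 2) < α)
    (Ω : Set (E N)) (hΩ : IsOpen Ω) (hb : Bornology.IsBounded Ω) (M : ℝ) :
    ∃ B : ℝ, ∀ f : ℝ → L2 N, ForceBound Ω M f → ∀ U : ℝ → St N, WaveSol a α Ω f U →
      ∀ t : ℝ, 0 ≤ t → Real.sqrt (waveEnergy (U t)) ≤ Real.sqrt (waveEnergy (U 0)) + B := by
  obtain ⟨B, hB⟩ := Pool.Agent.H40.Hx.transfer discreteBound N hN a α ha hα Ω hΩ hb M
  exact ⟨B, fun f hf U hU t ht => hB f hf U ((waveSol_iff a α Ω f U).1 hU) t ht⟩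

end Pool.Agent.Results.MP_d105ab_an.BoundedEnergy
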